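import Mathlib

open MeasureTheory Set Real

namespace Pool.Agent.Results.MP_a4d326_an.Large

/-- The representative of `x` modulo `2π` in `[0, 2π)`. -/
noncomputable def r (x : ℝ) : ℝ := toIcoMod two_pi_pos 0 x

/-- The square `E = [0, 2π)²`. -/
def E : Set (ℝ × ℝ) := Ico 0 (2 * π) ×ˢ Ico 0 (2 * π)

/-- The pairs with `τ₁ < τ₂`. -/
def E1 (ε : ℝ) : Set (ℝ × ℝ) :=
  {p | p ∈ E ∧ ∃ n : ℕ, 1 ≤ n ∧ r (n * p.1 - p.2) < ε ∧
    ∀ k : ℕ, 1 ≤ k → k ≤ n → ¬ r (k * p.1 - k * p.2) < ε}

local instance twoPiPos : Fact (0 < 2 * π) := ⟨two_pi_pos⟩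

lemma sl (U : Set (AddCircle (2 * π))) (hU : MeasurableSet U) (b : ℝ) :
    volume {a : ℝ | a ∈ Ico 0 (2 * π) ∧ ((a - b : ℝ) : AddCircle (2 * π)) ∈ U} = volume U := by
  have h := (AddCircle.measurePreserving_mk (2 * π) (-b)).measure_preimage hU.nullMeasurableSet
  rw [← Measure.restrict_congr_set Ico_ae_eq_Ioc, Measure.restrict_apply' measurableSet_Ico] at h
  rw [← h, ← measure_preimage_add_right volume b]
  congr 1; ext x
  simp only [mem_preimage, mem_setOf_eq, mem_inter_iff, mem_Ico, add_sub_cancel_right]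
  constructor
  · rintro ⟨⟨h1, h2⟩, h3⟩; exact ⟨h3, by linarith, by linarith⟩
  · rintro ⟨h3, h1, h2⟩; exact ⟨⟨by linarith, by linarith⟩, h3⟩

lemma sq (U : Set (AddCircle (2 * π))) (hU : MeasurableSet U) :
    volume {p : ℝ × ℝ | p ∈ E ∧ ((p.1 - p.2 : ℝ) : AddCircle (2 * π)) ∈ U} =
      volume U * ENNReal.ofReal (2 * π) := by
  have hm : MeasurableSet {p : ℝ × ℝ | p ∈ E ∧ ((p.1 - p.2 : ℝ) : AddCircle (2 * π)) ∈ U} :=
    (measurableSet_Ico.prod measurableSet_Ico).inter
      ((AddCircle.measurable_mk'.comp (measurable_fst.sub measurable_snd)) hU)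
  rw [Measure.volume_eq_prod, Measure.prod_apply_symm hm]
  have : (fun b : ℝ => volume ((fun a : ℝ => (a, b)) ⁻¹'
      {p : ℝ × ℝ | p ∈ E ∧ ((p.1 - p.2 : ℝ) : AddCircle (2 * π)) ∈ U})) =
      (Ico 0 (2 * π)).indicator fun _ => volume U := by
    ext b
    by_cases hb : b ∈ Ico 0 (2 * π)
    · rw [indicator_of_mem hb, ← sl U hU b]
      congr 1; ext a; simp only [E, mem_preimage, mem_setOf_eq, mem_prod, hb, and_true]
    · rw [indicator_of_notMem hb]
      simp only [E, preimage_setOf_eq, mem_prod, hb, and_false, false_and, setOf_false,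
        measure_empty]
  rw [this, lintegral_indicator_const measurableSet_Ico, Real.volume_Ico, sub_zero]

theorem result (ε : ℝ) (h : 2 * π / 3 < ε) : volume (E1 ε) < volume (E \ E1 ε) := by
  have hp := pi_pos
  set η := min ε π with hη
  have h1 : η ≤ ε := min_le_left _ _
  have h2 : η ≤ π := min_le_right _ _
  have h3 : 2 * π / 3 < η := lt_min h (by linarith)
  set S : Set ℝ := Ioo 0 η ∪ Ioo π (π + η / 2) with hS
  set U : Set (AddCircle (2 * π)) := {z | ((AddCircle.equivIco (2 * π) 0 z : ℝ)) ∈ S} with hUd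
  have hU : MeasurableSet U :=
    (measurable_subtype_coe.comp (AddCircle.measurableEquivIco (2 * π) 0).measurable)
      (measurableSet_Ioo.union measurableSet_Ioo)
  have hr : ∀ x : ℝ, (x : AddCircle (2 * π)) ∈ U ↔ r x ∈ S := fun x => Iff.rfl
  have hv : ENNReal.ofReal (η + η / 2) ≤ volume U := by
    rw [← sl U hU 0]
    have : volume S = ENNReal.ofReal (η + η / 2) := by
      rw [hS, measure_union _ measurableSet_Ioo, Real.volume_Ioo, Real.volume_Ioo,
        ← ENNReal.ofReal_add (by linarith) (by linarith)]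
      · congr 1; ring
      · exact Set.disjoint_left.2 fun x a b => by linarith [a.2, b.1]
    rw [← this]
    refine measure_mono fun x hx => ?_
    have hx' : x ∈ Ico 0 (2 * π) := by
      rcases hx with a | a <;> constructor <;> linarith [a.1, a.2]
    refine ⟨hx', ?_⟩
    rw [sub_zero, hr, r, (toIcoMod_eq_self _).2 (by simpa using hx')]
    exact hx
  have hc : volume Uᶜ < volume U := by
    rw [measure_compl hU (measure_ne_top _ _), AddCircle.measure_univ]
    refine (tsub_le_tsub_left hv _).trans_lt (lt_of_lt_of_le ?_ hv)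
    rw [← ENNReal.ofReal_sub _ (by linarith)]
    exact (ENNReal.ofReal_lt_ofReal_iff (by linarith)).2 (by linarith)
  have key : ∀ p : ℝ × ℝ, ((p.1 - p.2 : ℝ) : AddCircle (2 * π)) ∈ U → p ∉ E1 ε := by
    rintro p hp' ⟨-, n, hn, a1, a2⟩
    rw [hr] at hp'
    have b1 := a2 1 le_rfl hn
    simp only [Nat.cast_one, one_mul] at b1
    rcases hp' with c | c
    · exact b1 (c.2.trans_le h1)
    · rcases hn.eq_or_lt with rfl | hn2
      · exact b1 (by simpa using a1)
      · refine a2 2 (by norm_num) hn2 ?_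
        have : r (((2 : ℕ) : ℝ) * p.1 - ((2 : ℕ) : ℝ) * p.2) = 2 * r (p.1 - p.2) - 2 * π := by
          unfold r at c ⊢
          rw [toIcoMod_eq_iff]
          refine ⟨⟨by linarith [c.1], by linarith [c.2]⟩,
            2 * toIcoDiv two_pi_pos 0 (p.1 - p.2) + 1, ?_⟩
          have := toIcoMod_add_toIcoDiv_zsmul two_pi_pos 0 (p.1 - p.2)
          simp only [zsmul_eq_mul] at this ⊢
          push_cast
          linarith
        rw [this]; linarith [c.2]
  calc volume (E1 ε) ≤ volume Uᶜ * ENNReal.ofReal (2 * π) := by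
        rw [← sq _ hU.compl]
        exact measure_mono fun p hp' => ⟨hp'.1, fun hu => key p hu hp'⟩
    _ < volume U * ENNReal.ofReal (2 * π) :=
        ENNReal.mul_lt_mul_left (by simpa using hp) ENNReal.ofReal_ne_top hc
    _ ≤ volume (E \ E1 ε) := by
        rw [← sq _ hU]
        exact measure_mono fun p hp' => ⟨hp'.1, key p hp'.2⟩

end Pool.Agent.Results.MP_a4d326_an.Large
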